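import Mathlib

set_option autoImplicit false

/-!
# A lemma on circular orders without cycles of four short steps

`I : ℤ → ℤ` is monotone, `I (i + N) = I i + N` and `I (I (I (I i))) < i + N`; the sum over a period of
`max (K - (I i - i)) 0` is at least `K (K + 1) / 2` for suitable `K`.
-/

namespace Pool.Agent.AKH

open Finset

/-- columns in a set of pairs -/
theorem col_le {β : Type*} (s : Finset β) (P : Finset (ℤ × ℤ)) (c f g : β → ℤ)
    (hc : Set.InjOn c s) (h : ∀ b ∈ s, ∀ w, f b < w → w ≤ g b → (c b, w) ∈ P) :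
    ∑ b ∈ s, max (g b - f b) 0 ≤ (#P : ℤ) := by
  classical
  have h1 : #(s.sigma fun b => Ioc (f b) (g b)) ≤ #P := by
    refine card_le_card_of_injOn (fun t => (c t.1, t.2)) ?_ ?_
    · rintro ⟨b, w⟩ ht
      simp only [coe_sigma, Set.mem_sigma_iff, mem_coe, mem_Ioc] at ht
      exact h b ht.1 w ht.2.1 ht.2.2
    · rintro ⟨b, w⟩ ht ⟨b', w'⟩ ht' e
      simp only [coe_sigma, Set.mem_sigma_iff, mem_coe, mem_Ioc] at ht ht'
      simp only [Prod.mk.injEq] at e
      obtain ⟨e1, rfl⟩ := e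
      have := hc ht.1 ht'.1 e1
      subst this
      rfl
  rw [card_sigma] at h1
  have h2 : ((∑ b ∈ s, #(Ioc (f b) (g b)) : ℕ) : ℤ) = ∑ b ∈ s, max (g b - f b) 0 := by
    push_cast
    refine sum_congr rfl fun b _ => ?_
    rw [Int.card_Ioc, Int.toNat_eq_max]
  rw [← h2]
  exact_mod_cast h1

/-- rows in a set of pairs -/
theorem row_le {β : Type*} (s : Finset β) (P : Finset (ℤ × ℤ)) (c f g : β → ℤ)
    (hc : Set.InjOn c s) (h : ∀ b ∈ s, ∀ u, f b < u → u ≤ g b → (u, c b) ∈ P) :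
    ∑ b ∈ s, max (g b - f b) 0 ≤ (#P : ℤ) := by
  classical
  have h1 := col_le s (P.map (Equiv.prodComm ℤ ℤ).toEmbedding) c f g hc (by
    intro b hb w h1 h2
    rw [mem_map_equiv]
    exact h b hb w h1 h2)
  rwa [card_map] at h1

/-- the pairs which are counted -/
noncomputable def PP (N K : ℤ) (I : ℤ → ℤ) : Finset (ℤ × ℤ) :=
  (Ioc 0 N ×ˢ Ioc 0 (N + K)).filter fun t => I t.1 < t.2 ∧ t.2 ≤ t.1 + K

theorem mem_PP {N K : ℤ} {I : ℤ → ℤ} (hI : ∀ i, i ≤ I i) {u w : ℤ} :
    (u, w) ∈ PP N K I ↔ 0 < u ∧ u ≤ N ∧ I u < w ∧ w ≤ u + K := by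
  simp only [PP, mem_filter, mem_product, mem_Ioc]
  constructor
  · rintro ⟨⟨⟨h1, h2⟩, h3, h4⟩, h5, h6⟩
    exact ⟨h1, h2, h5, h6⟩
  · rintro ⟨h1, h2, h5, h6⟩
    have := hI u
    exact ⟨⟨⟨h1, h2⟩, by omega, by omega⟩, h5, h6⟩

theorem card_PP {N K : ℤ} {I : ℤ → ℤ} (hI : ∀ i, i ≤ I i) :
    (#(PP N K I) : ℤ) = ∑ u ∈ Ioc 0 N, max (K - (I u - u)) 0 := by
  have h1 : PP N K I = (Ioc 0 N).biUnion fun u => (Ioc (I u) (u + K)).map
      ⟨fun w => (u, w), fun a b h => by simpa using h⟩ := by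
    ext ⟨u, w⟩
    rw [mem_PP hI]
    simp only [mem_biUnion, mem_Ioc, mem_map, Function.Embedding.coeFn_mk, Prod.mk.injEq]
    constructor
    · rintro ⟨h1, h2, h3, h4⟩
      exact ⟨u, ⟨h1, h2⟩, w, ⟨h3, h4⟩, rfl, rfl⟩
    · rintro ⟨u', ⟨h1, h2⟩, w', ⟨h3, h4⟩, rfl, rfl⟩
      exact ⟨h1, h2, h3, h4⟩
  rw [h1, card_biUnion]
  · push_cast
    refine sum_congr rfl fun u _ => ?_
    rw [card_map, Int.card_Ioc, Int.toNat_eq_max]
    congr 1
    ring
  · intro u _ u' _ hne
    rw [Function.onFun, disjoint_left]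
    rintro ⟨a, b⟩ h2 h3
    simp only [mem_map, Function.Embedding.coeFn_mk, Prod.mk.injEq] at h2 h3
    obtain ⟨_, _, rfl, _⟩ := h2
    obtain ⟨_, _, h4, _⟩ := h3
    exact hne h4.symm

/-- the box in the middle -/
theorem mid_le {N K a : ℤ} {I : ℤ → ℤ} (hmono : Monotone I) (hI : ∀ i, i + a ≤ I i)
    (hNK : a ≤ N - 2 * K) (ha : 0 ≤ a) (Q : Finset (ℤ × ℤ))
    (hQ : ∀ u w, a < u → u ≤ N - K → K + a < w → w ≤ N → I u < w → w ≤ u + K → (u, w) ∈ Q)
    (x1 m x3 : ℤ) (h1 : I x1 = m) (h2 : I m = x3) :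
    a * ((min x1 (N - K) - max m (K + a) + K) + (min m (N - K) - max x3 (K + a) + K)) -
      a * (a - 1) ≤ (#Q : ℤ) := by
  have hm1 := hI x1
  have hm2 := hI m
  have hrange : ∀ n : ℤ, 0 ≤ n → ∑ j ∈ Ico (0 : ℤ) n, j * 2 = n * (n - 1) := by
    intro n hn
    obtain ⟨k, rfl⟩ := Int.eq_ofNat_of_zero_le hn
    clear hn
    induction k with
    | zero => simp
    | succ k ih =>
      have : Ico (0 : ℤ) ((k + 1 : ℕ) : ℤ) = insert (k : ℤ) (Ico (0 : ℤ) (k : ℤ)) := by
        ext z
        simp only [mem_Ico, mem_insert]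
        omega
      rw [this, sum_insert (by simp), ih]
      push_cast
      ring
  set p1 := min x1 (N - K)
  set p2 := max m (K + a)
  set p3 := min m (N - K)
  set p4 := max x3 (K + a)
  -- sum of the two families of lines
  have hsum : ∀ l1 l2 : ℤ, a * (l1 + l2) - a * (a - 1) ≤
      ∑ b ∈ (Ico (0 : ℤ) a) ×ˢ (univ : Finset Bool), max ((if b.2 then l1 else l2) - b.1) 0 := by
    intro l1 l2
    rw [sum_product]
    have h3 : ∀ j ∈ Ico (0 : ℤ) a, (l1 + l2) - j * 2 ≤
        ∑ b : Bool, max ((if b then l1 else l2) - j) 0 := by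
      intro j _
      rw [Fintype.sum_bool]
      simp only [if_true, Bool.false_eq_true, if_false]
      omega
    refine le_trans (le_of_eq ?_) (sum_le_sum h3)
    rw [sum_sub_distrib, sum_const, hrange a ha, Int.card_Ico, nsmul_eq_mul]
    simp only [sub_zero]
    rw [Int.toNat_of_nonneg ha]
  rcases le_total m (N - K) with hc | hc
  · -- columns
    have hp3 : p3 = m := min_eq_left hc
    have hp1 : p1 = x1 := min_eq_left (by omega)
    refine (hsum _ _).trans (le_trans (le_of_eq ?_) (col_le ((Ico (0 : ℤ) a) ×ˢ (univ : Finset Bool)) Q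
      (fun b => if b.2 then p1 - b.1 else p3 - b.1) (fun b => if b.2 then p2 else p4)
      (fun b => if b.2 then p1 - b.1 + K else p3 - b.1 + K) ?_ ?_))
    · refine sum_congr rfl fun b _ => ?_
      split_ifs <;> congr 1 <;> ring
    · rintro ⟨j, b⟩ hb ⟨j', b'⟩ hb' e
      simp only [coe_product, Set.mem_prod, mem_coe, mem_Ico, mem_univ, and_true] at hb hb'
      rcases b with _ | _ <;> rcases b' with _ | _ <;> simp at e ⊢ <;> omega
    · rintro ⟨j, b⟩ hb w hw1 hw2
      simp only [mem_product, mem_Ico, mem_univ, and_true] at hb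
      rcases b with _ | _
      · simp only [Bool.false_eq_true, if_false] at hw1 hw2 ⊢
        have h4 : x3 ≤ p4 := le_max_left _ _
        have h5 : K + a ≤ p4 := le_max_right _ _
        have h6 : I (p3 - j) ≤ x3 := by rw [← h2]; exact hmono (by omega)
        exact hQ _ _ (by omega) (by omega) (by omega) (by omega) (by omega) (by omega)
      · simp only [if_true] at hw1 hw2 ⊢
        have h4 : m ≤ p2 := le_max_left _ _
        have h5 : K + a ≤ p2 := le_max_right _ _
        have h6 : I (p1 - j) ≤ m := by rw [← h1]; exact hmono (by omega)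
        exact hQ _ _ (by omega) (by omega) (by omega) (by omega) (by omega) (by omega)
  · -- rows
    have hp2 : p2 = m := max_eq_left (by omega)
    have hp4 : p4 = x3 := max_eq_left (by omega)
    refine (hsum _ _).trans (le_trans (le_of_eq ?_) (row_le ((Ico (0 : ℤ) a) ×ˢ (univ : Finset Bool)) Q
      (fun b => if b.2 then p2 + 1 + b.1 else p4 + 1 + b.1)
      (fun b => if b.2 then p2 + 1 + b.1 - K - 1 else p4 + 1 + b.1 - K - 1)
      (fun b => if b.2 then p1 else p3) ?_ ?_))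
    · refine sum_congr rfl fun b _ => ?_
      split_ifs <;> congr 1 <;> ring
    · rintro ⟨j, b⟩ hb ⟨j', b'⟩ hb' e
      simp only [coe_product, Set.mem_prod, mem_coe, mem_Ico, mem_univ, and_true] at hb hb'
      rcases b with _ | _ <;> rcases b' with _ | _ <;> simp at e ⊢ <;> omega
    · rintro ⟨j, b⟩ hb u hu1 hu2
      simp only [mem_product, mem_Ico, mem_univ, and_true] at hb
      rcases b with _ | _
      · simp only [Bool.false_eq_true, if_false] at hu1 hu2 ⊢
        have h4 : p3 ≤ m := min_le_left _ _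
        have h5 : p3 ≤ N - K := min_le_right _ _
        have h6 : I u ≤ x3 := by rw [← h2]; exact hmono (by omega)
        exact hQ _ _ (by omega) (by omega) (by omega) (by omega) (by omega) (by omega)
      · simp only [if_true] at hu1 hu2 ⊢
        have h4 : p1 ≤ x1 := min_le_left _ _
        have h5 : p1 ≤ N - K := min_le_right _ _
        have h6 : I u ≤ m := by rw [← h1]; exact hmono (by omega)
        exact hQ _ _ (by omega) (by omega) (by omega) (by omega) (by omega) (by omega)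

end Pool.Agent.AKH
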