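import Pool.Agent.AKH.Cyc

set_option autoImplicit false

/-!
# The sum of the deficits over a period
-/

namespace Pool.Agent.AKH

open Finset

theorem card_split {β : Type*} [DecidableEq β] (P : Finset β) (p : β → Prop) [DecidablePred p] :
    (#P : ℤ) = #(P.filter p) + #(P.filter fun t => ¬ p t) := by
  have := card_filter_add_card_filter_not (s := P) p
  exact_mod_cast this.symm

theorem sum_tri (n : ℤ) (hn : 0 ≤ n) : 2 * ∑ s ∈ Ico (0 : ℤ) n, (n - s) = n * (n + 1) := by
  obtain ⟨k, rfl⟩ := Int.eq_ofNat_of_zero_le hn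
  clear hn
  induction k with
  | zero => simp
  | succ k ih =>
    have h1 : Ico (0 : ℤ) ((k + 1 : ℕ) : ℤ) = insert (k : ℤ) (Ico (0 : ℤ) (k : ℤ)) := by
      ext z
      simp only [mem_Ico, mem_insert]
      omega
    have h2 : ∑ s ∈ Ico (0 : ℤ) (k : ℤ), (((k + 1 : ℕ) : ℤ) - s) =
        ∑ s ∈ Ico (0 : ℤ) (k : ℤ), ((k : ℤ) - s) + k := by
      rw [← sub_eq_iff_eq_add', ← sum_sub_distrib]
      have : ∀ s ∈ Ico (0 : ℤ) (k : ℤ), (((k + 1 : ℕ) : ℤ) - s) - ((k : ℤ) - s) = 1 := by
        intro s _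
        push_cast
        ring
      rw [sum_congr rfl this]
      simp
    rw [h1, sum_insert (by simp), h2]
    push_cast
    push_cast at ih
    linarith

/-- **Lemma D** -/
theorem lemD {N K a : ℤ} {I : ℤ → ℤ} (hmono : Monotone I) (hper : ∀ i, I (i + N) = I i + N)
    (h4 : ∀ i, I (I (I (I i))) < i + N) (hI : ∀ i, i + a ≤ I i) (h0 : I 0 = a) (ha : 0 ≤ a)
    (haK : a ≤ K) (hNK : a ≤ N - 2 * K) :
    K * (K + 1) + a * (6 * K - 2 * N + 3 - a) ≤ 2 * ∑ u ∈ Ioc 0 N, max (K - (I u - u)) 0 := by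
  classical
  have hI' : ∀ i, i ≤ I i := fun i => by have := hI i; omega
  have hIN : I N = N + a := by
    have := hper 0
    rw [zero_add, h0] at this
    omega
  rw [← card_PP hI']
  set P := PP N K I with hP
  have hmem : ∀ {u w : ℤ}, (u, w) ∈ P ↔ 0 < u ∧ u ≤ N ∧ I u < w ∧ w ≤ u + K := fun {u w} => mem_PP hI'
  have e1 := card_split P (fun t => N + a < t.2)
  set T1 := P.filter (fun t => N + a < t.2) with hT1
  set R1 := P.filter (fun t => ¬ N + a < t.2) with hR1
  have e2 := card_split R1 (fun t => N < t.2)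
  set S3 := R1.filter (fun t => N < t.2) with hS3
  set R2 := R1.filter (fun t => ¬ N < t.2) with hR2
  have e3 := card_split R2 (fun t => t.1 ≤ a)
  set S0 := R2.filter (fun t => t.1 ≤ a) with hS0
  set R3 := R2.filter (fun t => ¬ t.1 ≤ a) with hR3
  have e4 := card_split R3 (fun t => t.2 ≤ K + a)
  set KL := R3.filter (fun t => t.2 ≤ K + a) with hKL
  set R4 := R3.filter (fun t => ¬ t.2 ≤ K + a) with hR4
  have e5 := card_split R4 (fun t => N - K < t.1)
  set KR := R4.filter (fun t => N - K < t.1) with hKR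
  set MD := R4.filter (fun t => ¬ N - K < t.1) with hMD
  -- first triangle
  have f1 : (K - a) * (K - a + 1) ≤ 2 * (#T1 : ℤ) := by
    have h1 := col_le (Ico (0 : ℤ) (K - a)) T1 (fun s => N - s) (fun _ => N + a) (fun s => N - s + K)
      (fun s _ s' _ e => by simpa using e) (by
        intro s hs w hw1 hw2
        rw [mem_Ico] at hs
        have h2 : I (N - s) ≤ N + a := by rw [← hIN]; exact hmono (by omega)
        rw [hT1, mem_filter, hmem]
        exact ⟨⟨by omega, by omega, by omega, by omega⟩, hw1⟩)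
    have h2 : ∑ s ∈ Ico (0 : ℤ) (K - a), max (N - s + K - (N + a)) 0 =
        ∑ s ∈ Ico (0 : ℤ) (K - a), (K - a - s) := by
      refine sum_congr rfl fun s hs => ?_
      rw [mem_Ico] at hs
      omega
    rw [h2] at h1
    have h3 := sum_tri (K - a) (by omega)
    linarith
  -- the chain of x
  have hx1 : ∀ x, x + a ≤ I x := hI
  have hx4 : ∀ x, I (I (I x)) + a < x + N := fun x => by
    have h1 := h4 x
    have h2 := hI (I (I (I x)))
    omega
  have f2 : ∑ x ∈ Ioc 0 a, max (I (I (I x)) - (N + x - K - 1)) 0 ≤ (#S3 : ℤ) := by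
    refine row_le (Ioc 0 a) S3 (fun x => N + x) (fun x => N + x - K - 1) (fun x => I (I (I x)))
      (fun s _ s' _ e => by simpa using e) ?_
    intro x hx u hu1 hu2
    rw [mem_Ioc] at hx
    have h1 := hx4 x
    have h2 := hmono hu2
    have h3 := h4 x
    rw [hS3, mem_filter, hR1, mem_filter, hmem]
    exact ⟨⟨⟨by omega, by omega, by omega, by omega⟩, by simp only; omega⟩, by simp only; omega⟩
  have f3 : ∑ x ∈ Ioc 0 a, max (x + K - I x) 0 ≤ (#S0 : ℤ) := by
    refine col_le (Ioc 0 a) S0 (fun x => x) (fun x => I x) (fun x => x + K)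
      (fun s _ s' _ e => by simpa using e) ?_
    intro x hx w hw1 hw2
    rw [mem_Ioc] at hx
    rw [hS0, mem_filter, hR2, mem_filter, hR1, mem_filter, hmem]
    exact ⟨⟨⟨⟨by omega, by omega, by omega, by omega⟩, by simp only; omega⟩, by simp only; omega⟩,
      by simp only; omega⟩
  have f4 : ∑ x ∈ Ioc 0 a, max (K + a - I (I x)) 0 ≤ (#KL : ℤ) := by
    refine col_le (Ioc 0 a) KL (fun x => a + x) (fun x => I (I x)) (fun _ => K + a)
      (fun s _ s' _ e => by simpa using e) ?_
    intro x hx w hw1 hw2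
    rw [mem_Ioc] at hx
    have h1 := hI x
    have h2 : I (a + x) ≤ I (I x) := hmono (by omega)
    rw [hKL, mem_filter, hR3, mem_filter, hR2, mem_filter, hR1, mem_filter, hmem]
    exact ⟨⟨⟨⟨⟨by omega, by omega, by omega, by omega⟩, by simp only; omega⟩, by simp only; omega⟩,
      by simp only; omega⟩, by simp only; omega⟩
  have f5 : ∑ x ∈ Ioc 0 a, max (I (I x) - (N - K)) 0 ≤ (#KR : ℤ) := by
    refine row_le (Ioc 0 a) KR (fun x => N - a + x) (fun _ => N - K) (fun x => I (I x))
      (fun s _ s' _ e => by simpa using e) ?_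
    intro x hx u hu1 hu2
    rw [mem_Ioc] at hx
    have h1 := hx4 x
    have h2 : I u ≤ I (I (I x)) := hmono hu2
    have h3 := hI' u
    rw [hKR, mem_filter, hR4, mem_filter, hR3, mem_filter, hR2, mem_filter, hR1, mem_filter, hmem]
    exact ⟨⟨⟨⟨⟨⟨by omega, by omega, by omega, by omega⟩, by simp only; omega⟩, by simp only; omega⟩,
      by simp only; omega⟩, by simp only; omega⟩, by simp only; omega⟩
  have f6 : ∀ x ∈ Ioc 0 a, a * ((min (I x) (N - K) - max (I (I x)) (K + a) + K) +
      (min (I (I x)) (N - K) - max (I (I (I x))) (K + a) + K)) - a * (a - 1) ≤ (#MD : ℤ) := by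
    intro x _
    refine mid_le hmono hI hNK ha MD ?_ (I x) (I (I x)) (I (I (I x))) rfl rfl
    intro u w h1 h2 h3 h4 h5 h6
    rw [hMD, mem_filter, hR4, mem_filter, hR3, mem_filter, hR2, mem_filter, hR1, mem_filter, hmem]
    exact ⟨⟨⟨⟨⟨⟨by omega, by omega, by omega, by omega⟩, by simp only; omega⟩, by simp only; omega⟩,
      by simp only; omega⟩, by simp only; omega⟩, by simp only; omega⟩
  -- the sum of the five parts for every x
  have f7 : ∀ x ∈ Ioc 0 a, 4 * K - N + 1 ≤ max (I (I (I x)) - (N + x - K - 1)) 0 +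
      max (x + K - I x) 0 + max (K + a - I (I x)) 0 + max (I (I x) - (N - K)) 0 +
      ((min (I x) (N - K) - max (I (I x)) (K + a) + K) +
      (min (I (I x)) (N - K) - max (I (I (I x))) (K + a) + K)) := by
    intro x hx
    rw [mem_Ioc] at hx
    omega
  rcases ha.eq_or_lt with h | h
  · subst h
    simp only [Ioc_self, sum_empty] at f2 f3 f4 f5
    have f6' : (0 : ℤ) ≤ #MD := by positivity
    simp only [sub_zero] at f1
    linarith
  · have f8 := sum_le_sum f7
    have f9 := sum_le_sum f6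
    rw [sum_const, Int.card_Ioc, nsmul_eq_mul, sub_zero, Int.toNat_of_nonneg ha] at f8
    rw [sum_const, Int.card_Ioc, nsmul_eq_mul, sub_zero, Int.toNat_of_nonneg ha, sum_sub_distrib,
      ← mul_sum, sum_const, Int.card_Ioc, nsmul_eq_mul, sub_zero, Int.toNat_of_nonneg ha] at f9
    simp only [sum_add_distrib] at f8 f9
    set A1 := ∑ x ∈ Ioc 0 a, max (I (I (I x)) - (N + x - K - 1)) 0
    set A2 := ∑ x ∈ Ioc 0 a, max (x + K - I x) 0
    set A3 := ∑ x ∈ Ioc 0 a, max (K + a - I (I x)) 0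
    set A4 := ∑ x ∈ Ioc 0 a, max (I (I x) - (N - K)) 0
    have f10 : ∀ L M : ℤ, a * L - a * (a * (a - 1)) ≤ a * M → L - a * (a - 1) ≤ M := by
      intro L M h1
      have h2 : a * (L - a * (a - 1)) ≤ a * M := by linarith
      exact le_of_mul_le_mul_left h2 h
    have f11 := f10 _ _ f9
    nlinarith [f11, f8, f1, f2, f3, f4, f5]

end Pool.Agent.AKH
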