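import Pool.Agent.AKH.Cyc2

set_option autoImplicit false

/-!
# The pairing lemma and the main statement for circular orders
-/

namespace Pool.Agent.AKH

open Finset

theorem sum_shift_one {N : ℤ} (hN : 0 ≤ N) (g : ℤ → ℤ) (hg : ∀ i, g (i + N) = g i) (s : ℤ) :
    ∑ u ∈ Ioc 0 N, g (u + (s + 1)) = ∑ u ∈ Ioc 0 N, g (u + s) := by
  have h1 : ∑ u ∈ Ioc 0 N, g (u + (s + 1)) = ∑ u ∈ Ioc 1 (N + 1), g (u + s) := by
    refine sum_bij (fun u _ => u + 1) ?_ ?_ ?_ ?_
    · intro u hu
      rw [mem_Ioc] at hu ⊢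
      omega
    · intro u _ u' _ e
      simpa using e
    · intro u hu
      rw [mem_Ioc] at hu
      exact ⟨u - 1, by rw [mem_Ioc]; omega, by ring⟩
    · intro u _
      congr 1
      ring
  rw [h1]
  have h2 : ∑ u ∈ Ioc 0 (N + 1), g (u + s) = g (N + 1 + s) + ∑ u ∈ Ioc 0 N, g (u + s) := by
    have : Ioc 0 (N + 1) = insert (N + 1) (Ioc 0 N) := by
      ext z
      simp only [mem_Ioc, mem_insert]
      omega
    rw [this, sum_insert (by simp)]
  have h3 : ∑ u ∈ Ioc 0 (N + 1), g (u + s) = g (1 + s) + ∑ u ∈ Ioc 1 (N + 1), g (u + s) := by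
    have : Ioc 0 (N + 1) = insert 1 (Ioc 1 (N + 1)) := by
      ext z
      simp only [mem_Ioc, mem_insert]
      omega
    rw [this, sum_insert (by simp)]
  have h4 : g (N + 1 + s) = g (1 + s) := by
    rw [show N + 1 + s = 1 + s + N by ring]
    exact hg _
  linarith

/-- a periodic function has the same sum over every period -/
theorem sum_shift {N : ℤ} (hN : 0 ≤ N) (g : ℤ → ℤ) (hg : ∀ i, g (i + N) = g i) (s : ℤ) :
    ∑ u ∈ Ioc 0 N, g (u + s) = ∑ u ∈ Ioc 0 N, g u := by
  induction s using Int.induction_on with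
  | zero => simp
  | succ i ih => rw [sum_shift_one hN g hg, ih]
  | pred i ih =>
    rw [← ih, ← sum_shift_one hN g hg]
    refine sum_congr rfl fun u _ => ?_
    congr 1
    ring

/-- **Lemma P** -/
theorem lemP {N K a : ℤ} {I : ℤ → ℤ} (hmono : Monotone I) (hper : ∀ i, I (i + N) = I i + N)
    (h4 : ∀ i, I (I (I (I i))) < i + N) (hI : ∀ i, i + a ≤ I i) (ha : 0 ≤ a) (hN : 0 ≤ N)
    (hK : 1 ≤ N - 2 * a - K) :
    N * (2 * K - N + 2 * a + 1) ≤ 2 * ∑ u ∈ Ioc 0 N, max (K - (I u - u)) 0 := by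
  classical
  rcases le_or_gt (2 * K - N + 2 * a + 1) 0 with hneg | hpos
  · have h1 : N * (2 * K - N + 2 * a + 1) ≤ 0 := mul_nonpos_of_nonneg_of_nonpos hN hneg
    have h2 : 0 ≤ ∑ u ∈ Ioc 0 N, max (K - (I u - u)) 0 := sum_nonneg fun u _ => le_max_right _ _
    linarith
  set f : ℤ → ℤ := fun t => ∑ u ∈ Ioc 0 N, if I u - u < t then 1 else 0 with hf
  have hE : ∑ u ∈ Ioc 0 N, max (K - (I u - u)) 0 = ∑ t ∈ Ioc 0 K, f t := by
    simp only [hf]
    rw [sum_comm]
    refine sum_congr rfl fun u _ => ?_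
    rw [← sum_filter, sum_const, nsmul_eq_mul, mul_one]
    have h1 : (Ioc 0 K).filter (fun t => I u - u < t) = Ioc (I u - u) K := by
      have h2 := hI u
      ext t
      simp only [mem_filter, mem_Ioc]
      omega
    rw [h1, Int.card_Ioc, Int.toNat_eq_max]
  have hfnn : ∀ t, 0 ≤ f t := fun t => sum_nonneg fun u _ => by split_ifs <;> norm_num
  have hpair : ∀ t, N ≤ f t + f (N - 2 * a - t) := by
    intro t
    have h1 := sum_shift hN (fun u => if I u - u < N - 2 * a - t then (1 : ℤ) else 0) (by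
      intro i
      simp only [hper]
      congr 1
      rw [eq_iff_iff]
      constructor <;> (intro h; linarith)) t
    simp only [hf]
    rw [← h1, ← sum_add_distrib]
    have h2 : ∀ u ∈ Ioc 0 N, (1 : ℤ) ≤ (if I u - u < t then 1 else 0) +
        (if I (u + t) - (u + t) < N - 2 * a - t then 1 else 0) := by
      intro u _
      by_contra h3
      have h4a : ¬ I u - u < t := by
        intro h5
        rw [if_pos h5] at h3
        apply h3
        split_ifs <;> norm_num
      have h4b : ¬ I (u + t) - (u + t) < N - 2 * a - t := by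
        intro h5
        rw [if_pos h5] at h3
        apply h3
        split_ifs <;> norm_num
      push Not at h4a h4b
      have h6 : u + t ≤ I u := by linarith
      have h7 : u + (N - 2 * a) ≤ I (I u) := le_trans (by linarith) (hmono h6)
      have h8 := hI (I (I u))
      have h9 := hI (I (I (I u)))
      have h10 := h4 u
      linarith
    have h3 := sum_le_sum h2
    rw [sum_const, Int.card_Ioc, nsmul_eq_mul, mul_one, sub_zero, Int.toNat_of_nonneg hN] at h3
    exact h3
  have h5 : ∑ t ∈ Icc (N - 2 * a - K) K, f t ≤ ∑ t ∈ Ioc 0 K, f t := by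
    refine sum_le_sum_of_subset_of_nonneg ?_ fun t _ _ => hfnn t
    intro t ht
    rw [mem_Icc] at ht
    rw [mem_Ioc]
    omega
  have h6 : ∑ t ∈ Icc (N - 2 * a - K) K, f (N - 2 * a - t) = ∑ t ∈ Icc (N - 2 * a - K) K, f t := by
    refine sum_bij (fun t _ => N - 2 * a - t) ?_ ?_ ?_ ?_
    · intro t ht
      rw [mem_Icc] at ht ⊢
      omega
    · intro t _ t' _ e
      simpa using e
    · intro t ht
      rw [mem_Icc] at ht
      exact ⟨N - 2 * a - t, by rw [mem_Icc]; omega, by ring⟩
    · intro t _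
      rfl
  have h7 := sum_le_sum fun t (_ : t ∈ Icc (N - 2 * a - K) K) => hpair t
  rw [sum_const, Int.card_Icc, nsmul_eq_mul, sum_add_distrib, h6, Int.toNat_of_nonneg (by omega)] at h7
  rw [hE]
  have h8 : (K + 1 - (N - 2 * a - K)) * N = N * (2 * K - N + 2 * a + 1) := by ring
  linarith

/-- lower bounds for the sum of the deficits at the level `K`, in terms of the smallest number of
rays in a quadrant -/
theorem cyc_both {N K : ℤ} {I : ℤ → ℤ} (hmono : Monotone I) (hper : ∀ i, I (i + N) = I i + N)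
    (h4 : ∀ i, I (I (I (I i))) < i + N) (hI : ∀ i, i ≤ I i) (hN : 1 ≤ N) :
    ∃ a : ℤ, 0 ≤ a ∧ 4 * a ≤ N - 1 ∧
      (a ≤ K → a ≤ N - 2 * K →
        K * (K + 1) + a * (6 * K - 2 * N + 3 - a) ≤ 2 * ∑ u ∈ Ioc 0 N, max (K - (I u - u)) 0) ∧
      (1 ≤ N - 2 * a - K →
        N * (2 * K - N + 2 * a + 1) ≤ 2 * ∑ u ∈ Ioc 0 N, max (K - (I u - u)) 0) := by
  obtain ⟨e, he, hmin⟩ := exists_min_image (Ioc 0 N) (fun u => I u - u) ⟨1, by rw [mem_Ioc]; omega⟩
  have hq : ∀ q i : ℤ, I (i + q * N) = I i + q * N := by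
    intro q
    induction q using Int.induction_on with
    | zero => intro i; simp
    | succ k ih => intro i; rw [show i + (k + 1) * N = i + k * N + N by ring, hper, ih]; ring
    | pred k ih =>
      intro i
      have h1 := hper (i + (-(k : ℤ) - 1) * N)
      rw [show i + (-(k : ℤ) - 1) * N + N = i + -(k : ℤ) * N by ring, ih] at h1
      linarith
  have hall : ∀ i, I e - e ≤ I i - i := by
    intro i
    -- reduce to the period
    have h1 : (i - 1) % N + (i - 1) / N * N = i - 1 := by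
      have := Int.emod_add_mul_ediv (i - 1) N
      linarith [mul_comm N ((i - 1) / N)]
    have h2 := Int.emod_nonneg (i - 1) (by omega : N ≠ 0)
    have h3 := Int.emod_lt_of_pos (i - 1) (by omega : 0 < N)
    have h5 := hmin ((i - 1) % N + 1) (by rw [mem_Ioc]; omega)
    have h6 := hq ((i - 1) / N) ((i - 1) % N + 1)
    rw [show (i - 1) % N + 1 + (i - 1) / N * N = i by linarith] at h6
    linarith
  -- shifted map
  set J : ℤ → ℤ := fun i => I (i + e) - e with hJ
  have j1 : Monotone J := fun i i' h => by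
    have := hmono (by omega : i + e ≤ i' + e)
    simp only [hJ]
    omega
  have j2 : ∀ i, J (i + N) = J i + N := fun i => by
    simp only [hJ]
    rw [show i + N + e = i + e + N by ring, hper]
    ring
  have j3 : ∀ i, J (J (J (J i))) < i + N := fun i => by
    simp only [hJ, sub_add_cancel]
    have := h4 (i + e)
    omega
  have j4 : ∀ i, i + (I e - e) ≤ J i := fun i => by
    simp only [hJ]
    have := hall (i + e)
    omega
  have j5 : J 0 = I e - e := by simp [hJ]
  have j6 : ∑ u ∈ Ioc 0 N, max (K - (J u - u)) 0 = ∑ u ∈ Ioc 0 N, max (K - (I u - u)) 0 := by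
    rw [← sum_shift (by omega) (fun u => max (K - (I u - u)) 0) (fun i => by
      simp only [hper]; congr 1; ring) e]
    refine sum_congr rfl fun u _ => ?_
    simp only [hJ]
    congr 1
    ring
  have ha : 0 ≤ I e - e := by have := hI e; omega
  refine ⟨I e - e, ha, ?_, fun h5 h6 => ?_, fun h5 => ?_⟩
  · have h5 := h4 0
    have h6 := hall 0
    have h7 := hall (I 0)
    have h8 := hall (I (I 0))
    have h9 := hall (I (I (I 0)))
    omega
  · rw [← j6]
    exact lemD j1 j2 j3 j4 j5 ha h5 h6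
  · rw [← j6]
    exact lemP j1 j2 j3 j4 ha (by omega) h5

/-- **the bracket at the level `0.367 N`** -/
theorem cyc_main {N K : ℤ} {I : ℤ → ℤ} (hmono : Monotone I) (hper : ∀ i, I (i + N) = I i + N)
    (h4 : ∀ i, I (I (I (I i))) < i + N) (hI : ∀ i, i ≤ I i) (hN : 1 ≤ N)
    (hK1 : 1000 * K ≤ 367 * N) (hK2 : 367 * N < 1000 * K + 1000) :
    K * (K + 1) ≤ 2 * ∑ u ∈ Ioc 0 N, max (K - (I u - u)) 0 + 6 * N := by
  obtain ⟨a, ha, ha4, hD, hP⟩ := cyc_both (K := K) hmono hper h4 hI hN
  rcases le_or_gt a K with h1 | h1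
  · rcases le_or_gt a (6 * K - 2 * N + 3) with h2 | h2
    · have h3 := hD h1 (by omega)
      have h5 : 0 ≤ a * (6 * K - 2 * N + 3 - a) := mul_nonneg ha (by omega)
      linarith
    · have h3 := hP (by omega)
      nlinarith
  · have h2 : K ≤ 5 := by omega
    have h3 : 0 ≤ ∑ u ∈ Ioc 0 N, max (K - (I u - u)) 0 := sum_nonneg fun u _ => le_max_right _ _
    have h5 : 0 ≤ K := by omega
    nlinarith

end Pool.Agent.AKH
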