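import Pool.Agent.AKH.Fin
import Pool.Agent.AK.ExactLo

set_option autoImplicit false

/-!
# Non-acute angles and the number of points in right-angled sectors
-/

namespace Pool.Agent.AKH

open Finset Classical Pool.Agent.AK Pool.Agent.MP_0af329_co

/-- the deficit at the level `K = (N + 1) / 3` when some sector has at most `s` points -/
theorem cyc_depth {N K s : ℤ} {I : ℤ → ℤ} (hmono : Monotone I) (hper : ∀ i, I (i + N) = I i + N)
    (h4 : ∀ i, I (I (I (I i))) < i + N) (hI : ∀ i, i ≤ I i) (hN : 1 ≤ N)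
    (hs : ∃ k, I k - k ≤ s) (hK : 3 * K ≤ N + 1) (hK' : N + 1 < 3 * K + 3) :
    K * (K + 1) ≤ 2 * ∑ u ∈ Ioc 0 N, max (K - (I u - u)) 0 + s * (s - 1) := by
  obtain ⟨e, he, hmin⟩ := exists_min_image (Ioc 0 N) (fun u => I u - u) ⟨1, by rw [mem_Ioc]; omega⟩
  have hq : ∀ q i : ℤ, I (i + q * N) = I i + q * N := by
    intro q
    induction q using Int.induction_on with
    | zero => intro i; simp
    | succ k ih => intro i; rw [show i + (k + 1) * N = i + k * N + N by ring, hper, ih]; ring
    | pred k ih =>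
      intro i
      have h1 := hper (i + (-(k : ℤ) - 1) * N)
      rw [show i + (-(k : ℤ) - 1) * N + N = i + -(k : ℤ) * N by ring, ih] at h1
      linarith
  have hall : ∀ i, I e - e ≤ I i - i := by
    intro i
    have h1 : (i - 1) % N + (i - 1) / N * N = i - 1 := by
      have := Int.emod_add_mul_ediv (i - 1) N
      linarith [mul_comm N ((i - 1) / N)]
    have h2 := Int.emod_nonneg (i - 1) (by omega : N ≠ 0)
    have h3 := Int.emod_lt_of_pos (i - 1) (by omega : 0 < N)
    have h5 := hmin ((i - 1) % N + 1) (by rw [mem_Ioc]; omega)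
    have h6 := hq ((i - 1) / N) ((i - 1) % N + 1)
    rw [show (i - 1) % N + 1 + (i - 1) / N * N = i by linarith] at h6
    linarith
  set J : ℤ → ℤ := fun i => I (i + e) - e with hJ
  have j1 : Monotone J := fun i i' h => by
    have := hmono (by omega : i + e ≤ i' + e)
    simp only [hJ]
    omega
  have j2 : ∀ i, J (i + N) = J i + N := fun i => by
    simp only [hJ]
    rw [show i + N + e = i + e + N by ring, hper]
    ring
  have j3 : ∀ i, J (J (J (J i))) < i + N := fun i => by
    simp only [hJ, sub_add_cancel]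
    have := h4 (i + e)
    omega
  have j4 : ∀ i, i + (I e - e) ≤ J i := fun i => by
    simp only [hJ]
    have := hall (i + e)
    omega
  have j5 : J 0 = I e - e := by simp [hJ]
  have j6 : ∑ u ∈ Ioc 0 N, max (K - (J u - u)) 0 = ∑ u ∈ Ioc 0 N, max (K - (I u - u)) 0 := by
    rw [← sum_shift (by omega) (fun u => max (K - (I u - u)) 0) (fun i => by
      simp only [hper]; congr 1; ring) e]
    refine sum_congr rfl fun u _ => ?_
    simp only [hJ]
    congr 1
    ring
  have ha : 0 ≤ I e - e := by have := hI e; omega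
  have ha4 : 4 * (I e - e) ≤ N - 1 := by
    have h5 := h4 0
    have h6 := hall 0
    have h7 := hall (I 0)
    have h8 := hall (I (I 0))
    have h9 := hall (I (I (I 0)))
    omega
  have has : I e - e ≤ s := by
    obtain ⟨k, hk⟩ := hs
    exact (hall k).trans hk
  have hD := lemD (K := K) j1 j2 j3 j4 j5 ha (by omega) (by omega)
  rw [j6] at hD
  set a := I e - e with had
  have h1 : a * 1 ≤ a * (6 * K - 2 * N + 3) := mul_le_mul_of_nonneg_left (by omega) ha
  have h2 : a * (a - 1) ≤ s * (s - 1) := by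
    rcases eq_or_lt_of_le ha with h | h
    · rw [← h]
      rcases le_or_gt s 0 with h0 | h0
      · nlinarith
      · nlinarith
    · nlinarith
  nlinarith [hD]

variable {ι : Type*}

/-- rotating a sector until its first side meets a point -/
theorem exists_al_le [Fintype ι] (x y : ι → ℝ)
    (hg : ∀ v p q : ι, v ≠ p → p ≠ q → v ≠ q → cr x y v p q ≠ 0) (v : ι)
    (hc : 2 ≤ Fintype.card ι) (a b : ℝ) (hab : ¬ (a = 0 ∧ b = 0)) :
    ∃ p, p ≠ v ∧ al x y v p ≤ #{q : ι | 0 < a * (x q - x v) + b * (y q - y v) ∧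
      0 < a * (y q - y v) - b * (x q - x v)} := by
  have hpi := Real.pi_pos
  set φ : ℝ := Complex.arg ⟨a, b⟩ with hφ
  set r : ℝ := ‖(⟨a, b⟩ : ℂ)‖ with hr
  have hr0 : 0 < r := by
    rw [hr, norm_pos_iff]
    intro h
    apply hab
    have h1 := congrArg Complex.re h
    have h2 := congrArg Complex.im h
    exact ⟨h1, h2⟩
  have ea : r * Real.cos φ = a := Complex.norm_mul_cos_arg _
  have eb : r * Real.sin φ = b := Complex.norm_mul_sin_arg _
  have hm : ∀ q : ι, ∃ m : ℤ, -(2 * Real.pi) < th x y v q - φ + 2 * Real.pi * m ∧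
      th x y v q - φ + 2 * Real.pi * m ≤ 0 := by
    intro q
    refine ⟨-⌈(th x y v q - φ) / (2 * Real.pi)⌉, ?_, ?_⟩
    · have := Int.ceil_lt_add_one ((th x y v q - φ) / (2 * Real.pi))
      rw [← sub_lt_iff_lt_add, lt_div_iff₀ Real.two_pi_pos] at this
      push_cast
      linarith
    · have := Int.le_ceil ((th x y v q - φ) / (2 * Real.pi))
      rw [div_le_iff₀ Real.two_pi_pos] at this
      push_cast
      linarith
  choose m hm1 hm2 using hm
  have hne : ((univ : Finset ι).erase v).Nonempty := by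
    rw [← card_pos, card_erase_of_mem (mem_univ v), card_univ]
    omega
  obtain ⟨p, hp, hmax⟩ := exists_max_image _ (fun q => th x y v q - φ + 2 * Real.pi * m q) hne
  have hpv : p ≠ v := by simpa using hp
  refine ⟨p, hpv, ?_⟩
  unfold al
  refine card_le_card fun q hq => ?_
  simp only [mem_filter, mem_univ, true_and] at hq ⊢
  have hqv : q ≠ v := by
    rintro rfl
    have : cr x y q p q = 0 := by simp [cr]
    rw [this] at hq
    exact lt_irrefl _ hq.1
  have hqp : p ≠ q := by
    rintro rfl
    have : cr x y v p p = 0 := by simp only [cr]; ring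
    rw [this] at hq
    exact lt_irrefl _ hq.1
  have hnr : 0 < nr x y v q := by
    refine lt_of_le_of_ne (nr_nonneg _ _ _ _) fun h => ?_
    have := hg v p q hpv.symm hqp hqv.symm
    rw [cr_eq, ← h] at this
    simp at this
  obtain ⟨k, hk1, hk2⟩ := (acute_iff x y hg v p q hpv hqv).1 hq
  have hpos : 0 < th x y v q - φ + 2 * Real.pi * ((k + m p : ℤ) : ℝ) := by
    by_contra h
    push Not at h
    have h1 := hmax q (by simpa using hqv)
    have h2 := hm1 q
    have h3 := hm1 p
    push_cast at h
    have h5 : 0 < 2 * Real.pi * ((k + m p - m q : ℤ) : ℝ) := by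
      push_cast
      nlinarith
    have h6 : 2 * Real.pi * ((k + m p - m q : ℤ) : ℝ) < 2 * Real.pi := by
      push_cast
      nlinarith
    have h7 : (0 : ℝ) < ((k + m p - m q : ℤ) : ℝ) := by
      by_contra h8
      push Not at h8
      nlinarith
    have h8 : ((k + m p - m q : ℤ) : ℝ) < 1 := by
      by_contra h9
      push Not at h9
      nlinarith
    have h9 : (0 : ℤ) < k + m p - m q := by exact_mod_cast h7
    have h10 : k + m p - m q < (1 : ℤ) := by exact_mod_cast h8
    omega
  have hlt : th x y v q - φ + 2 * Real.pi * ((k + m p : ℤ) : ℝ) < Real.pi / 2 := by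
    have := hm2 p
    push_cast
    linarith
  have hsc := (sin_cos_pos_iff (th x y v q - φ)).2 ⟨k + m p, hpos, hlt⟩
  have h3 : nr x y v q * Real.cos (th x y v q) = x q - x v := Complex.norm_mul_cos_arg _
  have h4 : nr x y v q * Real.sin (th x y v q) = y q - y v := Complex.norm_mul_sin_arg _
  rw [Real.sin_sub, Real.cos_sub] at hsc
  rw [← ea, ← eb, ← h3, ← h4]
  constructor
  · have := mul_pos (mul_pos hr0 hnr) hsc.2
    linarith [this, show r * nr x y v q * (Real.cos (th x y v q) * Real.cos φ +
      Real.sin (th x y v q) * Real.sin φ) = r * Real.cos φ * (nr x y v q * Real.cos (th x y v q)) +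
      r * Real.sin φ * (nr x y v q * Real.sin (th x y v q)) by ring]
  · have := mul_pos (mul_pos hr0 hnr) hsc.1
    linarith [this, show r * nr x y v q * (Real.sin (th x y v q) * Real.cos φ -
      Real.cos (th x y v q) * Real.sin φ) = r * Real.cos φ * (nr x y v q * Real.sin (th x y v q)) -
      r * Real.sin φ * (nr x y v q * Real.cos (th x y v q)) by ring]

/-- the bracket at a point with a sector with few points -/
theorem br_depth [Fintype ι] (x y : ι → ℝ)
    (hg : ∀ v p q : ι, v ≠ p → p ≠ q → v ≠ q → cr x y v p q ≠ 0) (v : ι)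
    (hc : 2 ≤ Fintype.card ι) (a b : ℝ) (hab : ¬ (a = 0 ∧ b = 0)) (s : ℕ)
    (hs : #{q : ι | 0 < a * (x q - x v) + b * (y q - y v) ∧
      0 < a * (y q - y v) - b * (x q - x v)} ≤ s) :
    ((Fintype.card ι / 3 : ℕ) : ℤ) * ((Fintype.card ι / 3 : ℕ) + 1) ≤
      2 * (br (Fintype.card ι / 3) x y v : ℤ) + s * (s - 1) := by
  obtain ⟨p, hp, hal⟩ := exists_al_le x y hg v hc a b hab
  obtain ⟨I, h1, h2, h4, h5, h6⟩ := exists_cyc x y hg v hc
  rw [h6]
  refine cyc_depth h1 h4 h5 h2 (by omega) ?_ (by omega) (by omega)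
  by_contra hcon
  push Not at hcon
  have h7 := h6 (s + 1)
  have h8 : ∑ k ∈ Ioc (0 : ℤ) ((Fintype.card ι : ℤ) - 1), max (((s + 1 : ℕ) : ℤ) - (I k - k)) 0 = 0 :=
    sum_eq_zero fun k _ => by
      have := hcon k
      push_cast
      omega
  rw [h8] at h7
  have h9 : 1 ≤ br (s + 1) x y v := by
    unfold br
    have h10 := single_le_sum (f := fun p => s + 1 - al x y v p) (fun _ _ => Nat.zero_le _)
      (mem_erase.2 ⟨hp, mem_univ p⟩)
    have h11 : 1 ≤ s + 1 - al x y v p := by omega
    exact h11.trans h10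
  omega

end Pool.Agent.AKH
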