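import Pool.Agent.AKH.Depth

set_option autoImplicit false

/-!
# Non-acute angles and the number of points in right-angled sectors: point sets
-/

namespace Pool.Agent.AKH

open Finset Classical Pool.Agent.AK Pool.Agent.MP_0af329_co

/-- The number of points of `S` in the open right-angled sector with apex `v` whose sides have the
directions `u` and `u` turned counterclockwise by `π / 2`. -/
noncomputable def sec (S : Finset Pt) (v u : Pt) : ℕ :=
  #{q ∈ S | 0 < u 0 * (q 0 - v 0) + u 1 * (q 1 - v 1) ∧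
    0 < u 0 * (q 1 - v 1) - u 1 * (q 0 - v 0)}

theorem sec_eq (S : Finset Pt) (v : S) (u : Pt) :
    #{q : S | 0 < u 0 * (X S q - X S v) + u 1 * (Y S q - Y S v) ∧
      0 < u 0 * (Y S q - Y S v) - u 1 * (X S q - X S v)} = sec S v.1 u := by
  unfold sec
  rw [← card_map (Function.Embedding.subtype _)]
  congr 1
  ext q
  simp only [mem_map, mem_filter, mem_univ, true_and, Function.Embedding.coe_subtype, X, Y]
  constructor
  · rintro ⟨q', h, rfl⟩
    exact ⟨q'.2, h⟩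
  · rintro ⟨h1, h2⟩
    exact ⟨⟨q, h1⟩, h2, rfl⟩

theorem pt_ne_zero {u : Pt} (hu : u ≠ 0) : ¬ (u 0 = 0 ∧ u 1 = 0) := by
  rintro ⟨h0, h1⟩
  apply hu
  ext i
  fin_cases i
  · exact h0
  · exact h1

/-- the sum of the brackets -/
theorem brk_depth (S : Finset Pt) (hS : GenPos S) (h2 : 2 ≤ S.card) (d : Pt → ℕ)
    (hd : ∀ v ∈ S, ∃ u : Pt, u ≠ 0 ∧ sec S v u ≤ d v) :
    (S.card : ℤ) * (((S.card / 3 : ℕ) : ℤ) * ((S.card / 3 : ℕ) + 1)) ≤
      2 * brk S (S.card / 3) + ∑ v ∈ S, (d v : ℤ) * (d v - 1) := by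
  have hc : Fintype.card S = S.card := Fintype.card_coe S
  have h1 : ∀ v : S, ((S.card / 3 : ℕ) : ℤ) * ((S.card / 3 : ℕ) + 1) ≤
      2 * (br (S.card / 3) (X S) (Y S) v : ℤ) + (d v.1 : ℤ) * (d v.1 - 1) := by
    intro v
    obtain ⟨u, hu, hs⟩ := hd v.1 v.2
    have h3 := br_depth (X S) (Y S) (gen S hS) v (by omega) (u 0) (u 1) (pt_ne_zero hu) (d v.1)
      (by rw [sec_eq]; exact hs)
    rwa [hc] at h3
  have h4 := sum_le_sum (fun v (_ : v ∈ (univ : Finset S)) => h1 v)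
  rw [sum_const, card_univ, hc, nsmul_eq_mul, sum_add_distrib, ← mul_sum] at h4
  unfold brk
  rw [← sum_coe_sort S (fun v => (d v : ℤ) * (d v - 1))]
  exact h4

private theorem choose2_int (n : ℕ) : 2 * ((n.choose 2 : ℕ) : ℤ) = (n : ℤ) * ((n : ℤ) - 1) := by
  induction n with
  | zero => simp
  | succ n ih =>
    rw [Nat.choose_succ_succ, Nat.choose_one_right]
    push_cast
    linarith

private theorem choose3_int (n : ℕ) :
    6 * ((n.choose 3 : ℕ) : ℤ) = (n : ℤ) * ((n : ℤ) - 1) * ((n : ℤ) - 2) := by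
  induction n with
  | zero => simp
  | succ n ih =>
    have h := choose2_int n
    rw [Nat.choose_succ_succ]
    push_cast
    linarith

/-- the level `n / 3` gives Turán's numbers -/
theorem T4_le {n : ℕ} {C D : ℤ} (h : (n : ℤ) * (n - 1) * (n - 2) +
      (n : ℤ) * (((n / 3 : ℕ) : ℤ) * ((n / 3 : ℕ) + 1)) - D ≤
      C + 6 * (((n - n / 3).choose 3 : ℕ) : ℤ) + 2 * ((n : ℤ) * (n - 1) * ((n / 3 : ℕ) : ℤ))) :
    2 * (T4 n : ℤ) ≤ C + D := by
  obtain ⟨m, r, hm, hr⟩ : ∃ m r : ℕ, n = 3 * m + r ∧ r < 3 :=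
    ⟨n / 3, n % 3, by omega, Nat.mod_lt _ (by norm_num)⟩
  have hdiv : n / 3 = m := by omega
  have hmod : n % 3 = r := by omega
  have hnm : n - m = 2 * m + r := by omega
  have e3 := choose3_int (2 * m + r)
  rw [hdiv, hnm] at h
  unfold T4
  rw [hdiv, hmod]
  interval_cases r
  · rw [if_pos rfl]
    rcases Nat.eq_zero_or_pos m with hm0 | hm0
    · subst hm0
      subst hm
      push_cast at h e3 ⊢
      nlinarith
    · obtain ⟨k, rfl⟩ : ∃ k, m = k + 1 := ⟨m - 1, by omega⟩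
      rw [show k + 1 - 1 = k by omega, show 2 * (k + 1) - 1 = 2 * k + 1 by omega]
      rw [hm] at h
      push_cast at h e3 ⊢
      nlinarith
  · rw [if_neg (by norm_num), if_pos rfl]
    rcases Nat.eq_zero_or_pos m with hm0 | hm0
    · subst hm0
      subst hm
      push_cast at h e3 ⊢
      nlinarith
    · obtain ⟨k, rfl⟩ : ∃ k, m = k + 1 := ⟨m - 1, by omega⟩
      rw [show 2 * (k + 1) - 1 = 2 * k + 1 by omega]
      rw [hm] at h
      push_cast at h e3 ⊢
      nlinarith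
  · rw [if_neg (by norm_num), if_neg (by norm_num)]
    rw [hm] at h
    push_cast at h e3 ⊢
    nlinarith

/-- **the lower bound for every set** -/
theorem depth_bound (S : Finset Pt) (hS : GenPos S) (d : Pt → ℕ)
    (hd : ∀ v ∈ S, ∃ u : Pt, u ≠ 0 ∧ sec S v u ≤ d v) :
    2 * T4 S.card ≤ cnt S (Set.Ici (Real.pi / 2)) + ∑ v ∈ S, d v * (d v - 1) := by
  have hsum : ((∑ v ∈ S, d v * (d v - 1) : ℕ) : ℤ) = ∑ v ∈ S, (d v : ℤ) * (d v - 1) := by
    rw [Nat.cast_sum]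
    refine sum_congr rfl fun v _ => ?_
    rcases Nat.eq_zero_or_pos (d v) with h | h
    · rw [h]; simp
    · rw [Nat.cast_mul, Nat.cast_sub h]; simp
  rcases Nat.lt_or_ge S.card 2 with h0 | h0
  · have : T4 S.card = 0 := by
      interval_cases S.card <;> simp [T4]
    omega
  · have h1 := cnt_Ici_ge S hS (S.card / 3)
    have h3 := brk_depth S hS h0 d hd
    have h4 := T4_le (n := S.card) (C := cnt S (Set.Ici (Real.pi / 2)))
      (D := ∑ v ∈ S, (d v : ℤ) * (d v - 1)) (by linarith)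
    rw [← hsum] at h4
    exact_mod_cast h4

/-- an empty sector at a point outside the hull of the others -/
theorem sec_convex (S : Finset Pt) (v : Pt)
    (h1 : v ∉ convexHull ℝ ((S : Set Pt) \ {v})) :
    ∃ u : Pt, u ≠ 0 ∧ sec S v u = 0 := by
  have h2 : IsClosed (convexHull ℝ ((S : Set Pt) \ {v})) :=
    ((S.finite_toSet.subset Set.sdiff_subset).isCompact_convexHull (𝕜 := ℝ)).isClosed
  obtain ⟨f, c, hu, hf⟩ := geometric_hahn_banach_point_closed (convex_convexHull ℝ _) h2 h1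
  have key : ∀ z : Pt, f z = z 0 * f (EuclideanSpace.single 0 1) +
      z 1 * f (EuclideanSpace.single 1 1) := by
    intro z
    have : z = z 0 • EuclideanSpace.single 0 (1 : ℝ) + z 1 • EuclideanSpace.single 1 (1 : ℝ) := by
      ext i
      fin_cases i <;> simp
    conv_lhs => rw [this]
    simp
  set a := f (EuclideanSpace.single 0 1) with ha
  set b := f (EuclideanSpace.single 1 1) with hb
  have hab : ∀ q ∈ S, q ≠ v → 0 < a * (q 0 - v 0) + b * (q 1 - v 1) := by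
    intro q hq hqv
    have h3 : q ∈ convexHull ℝ ((S : Set Pt) \ {v}) := subset_convexHull ℝ _ ⟨hq, hqv⟩
    have h4 := hf _ h3
    rw [key] at h4 hu
    linarith
  by_cases h0 : a = 0 ∧ b = 0
  · refine ⟨!₂[1, 0], ?_, ?_⟩
    · intro h
      have := congrArg (fun z : Pt => z 0) h
      simp at this
    · unfold sec
      rw [card_eq_zero, filter_eq_empty_iff]
      intro q hq hq'
      by_cases hqv : q = v
      · subst hqv
        simp at hq'
      · have := hab q hq hqv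
        rw [h0.1, h0.2] at this
        simp at this
  · refine ⟨!₂[-a, -b], ?_, ?_⟩
    · intro h
      apply h0
      have e0 := congrArg (fun z : Pt => z 0) h
      have e1 := congrArg (fun z : Pt => z 1) h
      simp at e0 e1
      exact ⟨e0, e1⟩
    · unfold sec
      rw [card_eq_zero, filter_eq_empty_iff]
      intro q hq hq'
      by_cases hqv : q = v
      · subst hqv
        simp at hq'
      · have h1 := hab q hq hqv
        have h2 : (!₂[-a, -b] : Pt) 0 = -a := by simp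
        have h3 : (!₂[-a, -b] : Pt) 1 = -b := by simp
        rw [h2, h3] at hq'
        linarith [hq'.1]

/-- **the lower bound**, with a condition only on the points inside the hull of the others -/
theorem depth_bound' (S : Finset Pt) (hS : GenPos S) (d : Pt → ℕ)
    (hd : ∀ v ∈ S, v ∈ convexHull ℝ ((S : Set Pt) \ {v}) → ∃ u : Pt, u ≠ 0 ∧ sec S v u ≤ d v) :
    2 * T4 S.card ≤ cnt S (Set.Ici (Real.pi / 2)) + ∑ v ∈ S, d v * (d v - 1) := by
  refine depth_bound S hS d fun v hv => ?_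
  by_cases h : v ∈ convexHull ℝ ((S : Set Pt) \ {v})
  · exact hd v hv h
  · obtain ⟨u, hu, hs⟩ := sec_convex S v h
    exact ⟨u, hu, by omega⟩

theorem T4_ge (n : ℕ) : 4 * (n : ℝ) ^ 3 - 18 * (n : ℝ) ^ 2 ≤ 54 * (T4 n : ℝ) := by
  obtain ⟨m, r, hm, hr⟩ : ∃ m r : ℕ, n = 3 * m + r ∧ r < 3 :=
    ⟨n / 3, n % 3, by omega, Nat.mod_lt _ (by norm_num)⟩
  have hdiv : n / 3 = m := by omega
  have hmod : n % 3 = r := by omega
  unfold T4
  rw [hdiv, hmod]
  interval_cases r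
  · rw [if_pos rfl]
    rcases Nat.eq_zero_or_pos m with hm0 | hm0
    · subst hm0
      subst hm
      simp
    · obtain ⟨k, rfl⟩ : ∃ k, m = k + 1 := ⟨m - 1, by omega⟩
      rw [show k + 1 - 1 = k by omega, show 2 * (k + 1) - 1 = 2 * k + 1 by omega, hm]
      have hk : (0 : ℝ) ≤ k := Nat.cast_nonneg k
      push_cast
      nlinarith [pow_nonneg hk 2, pow_nonneg hk 3]
  · rw [if_neg (by norm_num), if_pos rfl]
    rcases Nat.eq_zero_or_pos m with hm0 | hm0
    · subst hm0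
      subst hm
      norm_num
    · obtain ⟨k, rfl⟩ : ∃ k, m = k + 1 := ⟨m - 1, by omega⟩
      rw [show 2 * (k + 1) - 1 = 2 * k + 1 by omega, hm]
      have hk : (0 : ℝ) ≤ k := Nat.cast_nonneg k
      push_cast
      nlinarith [pow_nonneg hk 2, pow_nonneg hk 3]
  · rw [if_neg (by norm_num), if_neg (by norm_num), hm]
    have hk : (0 : ℝ) ≤ m := Nat.cast_nonneg m
    push_cast
    nlinarith [pow_nonneg hk 2, pow_nonneg hk 3]

/-- almost all points have a sector with few points -/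
theorem depth_limit (ε : ℝ) (hε : 0 < ε) : ∃ δ : ℝ, 0 < δ ∧ ∃ n₀ : ℕ, ∀ S : Finset Pt, GenPos S →
    n₀ ≤ S.card →
    (#{v ∈ S | ¬ ∃ u : Pt, u ≠ 0 ∧ (sec S v u : ℝ) ≤ δ * S.card} : ℝ) ≤ δ * S.card →
    (4 / 27 - ε) * ((S.card : ℝ) * ((S.card : ℝ) - 1) * ((S.card : ℝ) - 2)) ≤
      cnt S (Set.Ioi (Real.pi / 2)) := by
  refine ⟨min 1 (ε / 4), by positivity, ⌈6 / ε⌉₊ + 3, fun S hS hn hbad => ?_⟩
  set δ : ℝ := min 1 (ε / 4) with hδ
  have hδ0 : 0 < δ := by positivity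
  have hδ1 : δ ≤ 1 := min_le_left _ _
  have hδ2 : δ ≤ ε / 4 := min_le_right _ _
  set n : ℕ := S.card with hnd
  have hn0 : 6 / ε ≤ n := by
    have h1 := Nat.le_ceil (6 / ε)
    have h2 : ((⌈6 / ε⌉₊ + 3 : ℕ) : ℝ) ≤ n := by exact_mod_cast hn
    push_cast at h2
    linarith
  have hn3 : (3 : ℝ) ≤ n := by
    have h2 : ((⌈6 / ε⌉₊ + 3 : ℕ) : ℝ) ≤ n := by exact_mod_cast hn
    push_cast at h2
    have : (0 : ℝ) ≤ (⌈6 / ε⌉₊ : ℝ) := Nat.cast_nonneg _
    linarith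
  set good : Pt → Prop := fun v => ∃ u : Pt, u ≠ 0 ∧ (sec S v u : ℝ) ≤ δ * n with hgood
  set d : Pt → ℕ := fun v => if good v then ⌊δ * n⌋₊ else n with hd
  have h1 := depth_bound S hS d (by
    intro v hv
    by_cases h : good v
    · obtain ⟨u, hu, hs⟩ := h
      refine ⟨u, hu, ?_⟩
      simp only [hd]
      rw [if_pos ⟨u, hu, hs⟩]
      exact Nat.le_floor hs
    · refine ⟨!₂[1, 0], ?_, ?_⟩
      · intro h
        have := congrArg (fun z : Pt => z 0) h
        simp at this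
      · simp only [hd]
        rw [if_neg h]
        exact card_filter_le _ _)
  have h2 := cnt_Ioi_ge S hS
  rw [← hnd] at h1 h2
  have h3 : ((∑ v ∈ S, d v * (d v - 1) : ℕ) : ℝ) ≤ 2 * δ * (n : ℝ) ^ 3 := by
    have h4 : ∀ v ∈ S, d v * (d v - 1) ≤ (if ¬ good v then n * n else 0) +
        ⌊δ * n⌋₊ * ⌊δ * n⌋₊ := by
      intro v _
      by_cases h : good v
      · simp only [hd, if_pos h]
        rw [if_neg (not_not.2 h), zero_add]
        exact Nat.mul_le_mul le_rfl (Nat.sub_le _ _)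
      · simp only [hd, if_neg h]
        rw [if_pos h]
        exact (Nat.mul_le_mul le_rfl (Nat.sub_le _ _)).trans (Nat.le_add_right _ _)
    have h5 := sum_le_sum h4
    rw [sum_add_distrib, ← sum_filter, sum_const, sum_const, smul_eq_mul, smul_eq_mul, ← hnd] at h5
    have h6 : ((∑ v ∈ S, d v * (d v - 1) : ℕ) : ℝ) ≤
        (#{v ∈ S | ¬ good v} : ℝ) * (n * n) + n * ((⌊δ * n⌋₊ : ℝ) * (⌊δ * n⌋₊ : ℝ)) := by
      exact_mod_cast h5
    have h7 : (⌊δ * n⌋₊ : ℝ) ≤ δ * n := Nat.floor_le (by positivity)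
    have h8 : (⌊δ * n⌋₊ : ℝ) * (⌊δ * n⌋₊ : ℝ) ≤ (δ * n) * (δ * n) :=
      mul_le_mul h7 h7 (Nat.cast_nonneg _) (by positivity)
    have h9 : (#{v ∈ S | ¬ good v} : ℝ) * (n * n) ≤ δ * n * (n * n) :=
      mul_le_mul_of_nonneg_right hbad (by positivity)
    have h10 : (n : ℝ) * ((⌊δ * n⌋₊ : ℝ) * (⌊δ * n⌋₊ : ℝ)) ≤ n * ((δ * n) * (δ * n)) :=
      mul_le_mul_of_nonneg_left h8 (by positivity)
    have h11 : (n : ℝ) * ((δ * n) * (δ * n)) ≤ δ * (n : ℝ) ^ 3 := by
      have : δ * δ ≤ δ * 1 := mul_le_mul_of_nonneg_left hδ1 hδ0.le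
      have h12 : (0 : ℝ) ≤ (n : ℝ) ^ 3 := by positivity
      nlinarith
    nlinarith
  have h4 := T4_ge n
  have h1' : 2 * (T4 n : ℝ) ≤ cnt S (Set.Ici (Real.pi / 2)) +
      ((∑ v ∈ S, d v * (d v - 1) : ℕ) : ℝ) := by exact_mod_cast h1
  have h2' : (cnt S (Set.Ici (Real.pi / 2)) : ℝ) ≤
      cnt S (Set.Ioi (Real.pi / 2)) + 2 * ((n : ℝ) * ((n : ℝ) - 1)) := by exact_mod_cast h2
  have h5 : 0 ≤ (n : ℝ) * ((n : ℝ) - 1) * ((n : ℝ) - 2) := by
    have : (0 : ℝ) ≤ (n : ℝ) - 1 := by linarith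
    have : (0 : ℝ) ≤ (n : ℝ) - 2 := by linarith
    positivity
  have h6 : (n : ℝ) * ((n : ℝ) - 1) * ((n : ℝ) - 2) ≤ (n : ℝ) ^ 3 := by nlinarith
  rcases le_or_gt (4 / 27 - ε) 0 with h | h
  · have : (4 / 27 - ε) * ((n : ℝ) * ((n : ℝ) - 1) * ((n : ℝ) - 2)) ≤ 0 :=
      mul_nonpos_of_nonpos_of_nonneg h h5
    have h7 : (0 : ℝ) ≤ cnt S (Set.Ioi (Real.pi / 2)) := Nat.cast_nonneg _
    linarith
  · have h7 : (4 / 27 - ε) * ((n : ℝ) * ((n : ℝ) - 1) * ((n : ℝ) - 2)) ≤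
        (4 / 27 - ε) * (n : ℝ) ^ 3 := mul_le_mul_of_nonneg_left h6 h.le
    have h8 : 6 ≤ ε * n := by
      rw [div_le_iff₀ hε] at hn0
      linarith
    have h9 : 6 * (n : ℝ) ^ 2 ≤ ε * (n : ℝ) ^ 3 := by
      have : (0 : ℝ) ≤ (n : ℝ) ^ 2 := by positivity
      nlinarith
    have h10 : 2 * δ * (n : ℝ) ^ 3 ≤ ε / 2 * (n : ℝ) ^ 3 :=
      mul_le_mul_of_nonneg_right (by linarith) (by positivity)
    nlinarith

end Pool.Agent.AKH
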