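import Pool.Agent.AK.Count
import Mathlib.Analysis.SpecialFunctions.Complex.Arg

set_option autoImplicit false

/-!
# The rays from one point in cyclic order
-/

namespace Pool.Agent.AKH

open Finset Classical Pool.Agent.AK

/-- a finite set of reals inside a half open period, listed periodically -/
theorem per_list (A : Finset ℝ) (hA : ∀ s ∈ A, -Real.pi < s ∧ s ≤ Real.pi) (hN : 0 < #A) :
    ∃ F : ℤ → ℝ, StrictMono F ∧ (∀ k, F (k + #A) = F k + 2 * Real.pi) ∧
      (∀ k, ∃ m : ℤ, F k + 2 * Real.pi * m ∈ A) ∧
      (∀ s ∈ A, ∀ m : ℤ, ∃ k, F k = s + 2 * Real.pi * m) ∧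
      ∀ g : ℝ → ℤ, (∑ k ∈ Ioc (0 : ℤ) (#A : ℤ), g (F k)) = ∑ s ∈ A, g s := by
  set N : ℤ := (#A : ℤ) with hNd
  have hN0 : 0 < N := by
    rw [hNd]
    exact_mod_cast hN
  have hlt : ∀ k : ℤ, ((k - 1) % N).toNat < #A := by
    intro k
    have h1 := Int.emod_lt_of_pos (k - 1) hN0
    have h2 := Int.emod_nonneg (k - 1) hN0.ne'
    omega
  set e := A.orderEmbOfFin rfl with he
  set F : ℤ → ℝ := fun k => e ⟨((k - 1) % N).toNat, hlt k⟩ + 2 * Real.pi * (((k - 1) / N : ℤ) : ℝ)
    with hF
  have heA : ∀ i, e i ∈ A := fun i => A.orderEmbOfFin_mem rfl i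
  have hsh : ∀ k m : ℤ, F (k + N * m) = F k + 2 * Real.pi * m := by
    intro k m
    have h1 : (k + N * m - 1) % N = (k - 1) % N := by
      rw [show k + N * m - 1 = (k - 1) + N * m by ring, Int.add_mul_emod_self_left]
    have h2 : (k + N * m - 1) / N = (k - 1) / N + m := by
      rw [show k + N * m - 1 = (k - 1) + N * m by ring, Int.add_mul_ediv_left _ _ hN0.ne']
    simp only [hF, h1, h2]
    push_cast
    ring
  have hval : ∀ i : Fin (#A), F ((i : ℕ) + 1) = e i := by
    intro i
    have h0 : ((i : ℕ) : ℤ) < N := by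
      rw [hNd]
      exact_mod_cast i.2
    have h1 : (((i : ℕ) : ℤ) + 1 - 1) % N = ((i : ℕ) : ℤ) := by
      rw [add_sub_cancel_right]
      exact Int.emod_eq_of_lt (by omega) h0
    have h2 : (((i : ℕ) : ℤ) + 1 - 1) / N = 0 := by
      rw [add_sub_cancel_right]
      exact Int.ediv_eq_zero_of_lt (by omega) h0
    simp only [hF, h1, h2]
    simp
  have hstep : ∀ k : ℤ, F k < F (k + 1) := by
    intro k
    have h1 := Int.emod_lt_of_pos (k - 1) hN0
    have h2 := Int.emod_nonneg (k - 1) hN0.ne'
    have h3 := Int.emod_add_mul_ediv (k - 1) N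
    set r := (k - 1) % N with hr
    set q := (k - 1) / N with hq
    have hk : k = (r + 1) + N * q := by linarith
    have hkF : F k = F (r + 1) + 2 * Real.pi * q := by
      rw [← hsh, ← hk]
    have hrn : r = ((r.toNat : ℕ) : ℤ) := by omega
    have hkF2 : F (r + 1) = e ⟨r.toNat, by omega⟩ := by
      rw [← hval ⟨r.toNat, by omega⟩]
      simp only
      rw [← hrn]
    rcases lt_or_ge (r + 1) N with h | h
    · have hk1 : F (k + 1) = F (r + 1 + 1) + 2 * Real.pi * q := by
        rw [← hsh]
        congr 1
        rw [hk]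
        ring
      have hkF3 : F (r + 1 + 1) = e ⟨r.toNat + 1, by omega⟩ := by
        rw [← hval ⟨r.toNat + 1, by omega⟩]
        congr 1
        push_cast
        omega
      rw [hkF, hk1, hkF2, hkF3]
      have : e ⟨r.toNat, by omega⟩ < e ⟨r.toNat + 1, by omega⟩ := by
        rw [OrderEmbedding.lt_iff_lt]
        exact Fin.mk_lt_mk.2 (Nat.lt_succ_self _)
      linarith
    · have hrN : r + 1 = N := by omega
      have hk1 : F (k + 1) = F (0 + 1) + 2 * Real.pi * ((q + 1 : ℤ) : ℝ) := by
        rw [← hsh]
        congr 1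
        rw [hk, hrN]
        ring
      have hkF3 : F (0 + 1) = e ⟨0, by omega⟩ := by
        rw [← hval ⟨0, by omega⟩]
        simp
      rw [hkF, hk1, hkF2, hkF3]
      have h4 := (hA _ (heA ⟨r.toNat, by omega⟩)).2
      have h5 := (hA _ (heA ⟨0, by omega⟩)).1
      push_cast
      nlinarith [Real.pi_pos]
  refine ⟨F, strictMono_int_of_lt_succ hstep, ?_, ?_, ?_, ?_⟩
  · intro k
    have := hsh k 1
    simpa using this
  · intro k
    refine ⟨-((k - 1) / N), ?_⟩
    have : F k + 2 * Real.pi * ((-((k - 1) / N) : ℤ) : ℝ) =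
        e ⟨((k - 1) % N).toNat, hlt k⟩ := by
      simp only [hF]
      push_cast
      ring
    rw [this]
    exact heA _
  · intro s hs m
    have : s ∈ Set.range e := by
      rw [he, Finset.range_orderEmbOfFin]
      exact hs
    obtain ⟨i, hi⟩ := this
    refine ⟨(i : ℕ) + 1 + N * m, ?_⟩
    rw [hsh, hval, hi]
  · intro g
    have h1 : ∑ s ∈ A, g s = ∑ i : Fin (#A), g (e i) := by
      have h2 : (univ : Finset (Fin (#A))).map e.toEmbedding = A := by
        rw [he]
        ext s
        simp only [mem_map, mem_univ, true_and]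
        have h3 : s ∈ A ↔ s ∈ Set.range (A.orderEmbOfFin rfl) := by
          rw [Finset.range_orderEmbOfFin]
          rfl
        rw [h3]
        rfl
      conv_lhs => rw [← h2]
      rw [sum_map]
      rfl
    rw [h1]
    symm
    refine sum_bij (fun (i : Fin (#A)) _ => ((i : ℕ) : ℤ) + 1) ?_ ?_ ?_ ?_
    · intro i _
      have := i.2
      rw [mem_Ioc]
      omega
    · intro i _ j _ h
      apply Fin.ext
      have : ((i : ℕ) : ℤ) + 1 = ((j : ℕ) : ℤ) + 1 := h
      omega
    · intro k hk
      rw [mem_Ioc] at hk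
      refine ⟨⟨(k - 1).toNat, by omega⟩, mem_univ _, ?_⟩
      show (((k - 1).toNat : ℕ) : ℤ) + 1 = k
      omega
    · intro i _
      rw [hval]

/-- sine and cosine positive: the angle lies in the first quadrant -/
theorem sin_cos_pos_iff (φ : ℝ) :
    (0 < Real.sin φ ∧ 0 < Real.cos φ) ↔
      ∃ m : ℤ, 0 < φ + 2 * Real.pi * m ∧ φ + 2 * Real.pi * m < Real.pi / 2 := by
  have hsin : ∀ m : ℤ, Real.sin (φ + 2 * Real.pi * m) = Real.sin φ := fun m => by
    rw [show 2 * Real.pi * (m : ℝ) = m * (2 * Real.pi) by ring]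
    exact Real.sin_add_int_mul_two_pi φ m
  have hcos : ∀ m : ℤ, Real.cos (φ + 2 * Real.pi * m) = Real.cos φ := fun m => by
    rw [show 2 * Real.pi * (m : ℝ) = m * (2 * Real.pi) by ring]
    exact Real.cos_add_int_mul_two_pi φ m
  constructor
  · rintro ⟨h1, h2⟩
    obtain ⟨m, h3, h4⟩ : ∃ m : ℤ, 0 ≤ φ + 2 * Real.pi * m ∧ φ + 2 * Real.pi * m < 2 * Real.pi := by
      refine ⟨-⌊φ / (2 * Real.pi)⌋, ?_, ?_⟩
      · have := Int.floor_le (φ / (2 * Real.pi))
        rw [le_div_iff₀ Real.two_pi_pos] at this
        push_cast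
        linarith
      · have := Int.lt_floor_add_one (φ / (2 * Real.pi))
        rw [div_lt_iff₀ Real.two_pi_pos] at this
        push_cast
        linarith
    rw [← hsin m] at h1
    rw [← hcos m] at h2
    set ψ := φ + 2 * Real.pi * m with hψ
    have h5 : 0 < ψ := by
      rcases h3.lt_or_eq with h | h
      · exact h
      · rw [← h] at h1
        simp at h1
    have h6 : ψ < Real.pi := by
      by_contra h
      push Not at h
      have : Real.sin ψ ≤ 0 := by
        have h7 : Real.sin (ψ - 2 * Real.pi) ≤ 0 :=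
          Real.sin_nonpos_of_nonpos_of_neg_pi_le (by linarith) (by linarith)
        rwa [Real.sin_sub_two_pi] at h7
      linarith
    refine ⟨m, h5, ?_⟩
    by_contra h
    push Not at h
    have := Real.cos_nonpos_of_pi_div_two_le_of_le h (by linarith [Real.pi_pos])
    linarith
  · rintro ⟨m, h1, h2⟩
    rw [← hsin m, ← hcos m]
    exact ⟨Real.sin_pos_of_pos_of_lt_pi h1 (by linarith [Real.pi_pos]),
      Real.cos_pos_of_mem_Ioo ⟨by linarith [Real.pi_pos], h2⟩⟩

variable {ι : Type*}

/-- the direction of `p` seen from `v` -/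
noncomputable def th (x y : ι → ℝ) (v p : ι) : ℝ := Complex.arg ⟨x p - x v, y p - y v⟩

/-- the distance -/
noncomputable def nr (x y : ι → ℝ) (v p : ι) : ℝ := ‖(⟨x p - x v, y p - y v⟩ : ℂ)‖

theorem nr_nonneg (x y : ι → ℝ) (v p : ι) : 0 ≤ nr x y v p := norm_nonneg _

theorem cr_eq (x y : ι → ℝ) (v p q : ι) :
    cr x y v p q = nr x y v p * nr x y v q * Real.sin (th x y v q - th x y v p) := by
  have h1 : nr x y v p * Real.cos (th x y v p) = x p - x v := Complex.norm_mul_cos_arg _
  have h2 : nr x y v p * Real.sin (th x y v p) = y p - y v := Complex.norm_mul_sin_arg _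
  have h3 : nr x y v q * Real.cos (th x y v q) = x q - x v := Complex.norm_mul_cos_arg _
  have h4 : nr x y v q * Real.sin (th x y v q) = y q - y v := Complex.norm_mul_sin_arg _
  rw [cr, ← h1, ← h2, ← h3, ← h4, Real.sin_sub]
  ring

theorem dt_eq (x y : ι → ℝ) (v p q : ι) :
    dt x y v p q = nr x y v p * nr x y v q * Real.cos (th x y v q - th x y v p) := by
  have h1 : nr x y v p * Real.cos (th x y v p) = x p - x v := Complex.norm_mul_cos_arg _
  have h2 : nr x y v p * Real.sin (th x y v p) = y p - y v := Complex.norm_mul_sin_arg _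
  have h3 : nr x y v q * Real.cos (th x y v q) = x q - x v := Complex.norm_mul_cos_arg _
  have h4 : nr x y v q * Real.sin (th x y v q) = y q - y v := Complex.norm_mul_sin_arg _
  rw [dt, ← h1, ← h2, ← h3, ← h4, Real.cos_sub]
  ring

theorem th_inj [Fintype ι] (x y : ι → ℝ)
    (hg : ∀ v p q : ι, v ≠ p → p ≠ q → v ≠ q → cr x y v p q ≠ 0) (v : ι) :
    Set.InjOn (th x y v) ((univ : Finset ι).erase v) := by
  intro p hp q hq h
  have hp' : p ≠ v := by simpa using hp
  have hq' : q ≠ v := by simpa using hq
  by_contra hpq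
  apply hg v p q hp'.symm hpq hq'.symm
  rw [cr_eq, h, sub_self, Real.sin_zero, mul_zero]

theorem acute_iff (x y : ι → ℝ)
    (hg : ∀ v p q : ι, v ≠ p → p ≠ q → v ≠ q → cr x y v p q ≠ 0) (v p q : ι) (hp : p ≠ v)
    (hq : q ≠ v) :
    (0 < cr x y v p q ∧ 0 < dt x y v p q) ↔
      ∃ m : ℤ, th x y v p < th x y v q + 2 * Real.pi * m ∧
        th x y v q + 2 * Real.pi * m < th x y v p + Real.pi / 2 := by
  by_cases hpq : p = q
  · subst hpq
    constructor
    · rintro ⟨h, -⟩
      rw [cr_eq, sub_self, Real.sin_zero, mul_zero] at h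
      exact absurd h (lt_irrefl _)
    · rintro ⟨m, h1, h2⟩
      exfalso
      have h3 : 0 < 2 * Real.pi * m := by linarith
      have h4 : (0 : ℝ) < m := by
        by_contra h
        push Not at h
        nlinarith [Real.pi_pos]
      have h5 : (1 : ℝ) ≤ m := by
        have : (0 : ℤ) < m := by exact_mod_cast h4
        have : (1 : ℤ) ≤ m := by omega
        exact_mod_cast this
      nlinarith [Real.pi_pos]
  · have h0 := hg v p q hp.symm hpq hq.symm
    rw [cr_eq] at h0
    have h1 : 0 < nr x y v p := lt_of_le_of_ne (nr_nonneg _ _ _ _) (fun h => h0 (by rw [← h]; simp))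
    have h2 : 0 < nr x y v q := lt_of_le_of_ne (nr_nonneg _ _ _ _) (fun h => h0 (by rw [← h]; simp))
    rw [cr_eq, dt_eq, mul_pos_iff_of_pos_left (mul_pos h1 h2),
      mul_pos_iff_of_pos_left (mul_pos h1 h2), sin_cos_pos_iff]
    constructor
    · rintro ⟨m, h3, h4⟩
      exact ⟨m, by linarith, by linarith⟩
    · rintro ⟨m, h3, h4⟩
      exact ⟨m, by linarith, by linarith⟩

theorem exists_cyc [Fintype ι] (x y : ι → ℝ)
    (hg : ∀ v p q : ι, v ≠ p → p ≠ q → v ≠ q → cr x y v p q ≠ 0) (v : ι)
    (hc : 2 ≤ Fintype.card ι) :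
    ∃ I : ℤ → ℤ, Monotone I ∧ (∀ k, k ≤ I k) ∧
      (∀ k, I (k + ((Fintype.card ι : ℤ) - 1)) = I k + ((Fintype.card ι : ℤ) - 1)) ∧
      (∀ k, I (I (I (I k))) < k + ((Fintype.card ι : ℤ) - 1)) ∧
      ∀ K : ℕ, (br K x y v : ℤ) =
        ∑ k ∈ Finset.Ioc (0 : ℤ) ((Fintype.card ι : ℤ) - 1), max ((K : ℤ) - (I k - k)) 0 := by
  set A : Finset ℝ := ((univ : Finset ι).erase v).image (th x y v) with hA
  have hinj := th_inj x y hg v
  have hcA : #A = Fintype.card ι - 1 := by
    rw [hA, card_image_of_injOn hinj, card_erase_of_mem (mem_univ v), card_univ]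
  have hcZ : ((Fintype.card ι : ℤ) - 1) = (#A : ℤ) := by omega
  have hAr : ∀ s ∈ A, -Real.pi < s ∧ s ≤ Real.pi := by
    intro s hs
    rw [hA, mem_image] at hs
    obtain ⟨p, -, rfl⟩ := hs
    exact ⟨Complex.neg_pi_lt_arg _, Complex.arg_le_pi _⟩
  obtain ⟨F, hF, hFp, hF1, hF2, hF3⟩ := per_list A hAr (by omega)
  rw [hcZ]
  set N : ℤ := (#A : ℤ) with hN
  have hN0 : 0 < N := by omega
  have hpi := Real.pi_pos
  have hex : ∀ k : ℤ, ∃ i : ℤ, F i < F k + Real.pi / 2 ∧ ∀ j, F j < F k + Real.pi / 2 → j ≤ i := by
    intro k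
    apply Int.exists_greatest_of_bdd
    · refine ⟨k + N, fun z hz => ?_⟩
      by_contra h
      push Not at h
      have h1 := hF h
      rw [hFp] at h1
      linarith
    · exact ⟨k, by linarith⟩
  choose I hI1 hI2 using hex
  have hI : ∀ k j, j ≤ I k ↔ F j < F k + Real.pi / 2 := fun k j =>
    ⟨fun h => lt_of_le_of_lt (hF.monotone h) (hI1 k), hI2 k j⟩
  have hIk : ∀ k, k ≤ I k := fun k => (hI k k).2 (by linarith)
  have hIN : ∀ k, I k < k + N := by
    intro k
    by_contra h
    push Not at h
    have h1 := hF.monotone h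
    rw [hFp] at h1
    linarith [hI1 k]
  have hFm : ∀ (k m : ℤ), F (k + N * m) = F k + 2 * Real.pi * m := by
    intro k m
    induction m using Int.induction_on with
    | zero => simp
    | succ i ih =>
      rw [show k + N * ((i : ℤ) + 1) = k + N * i + N by ring, hFp, ih]
      push_cast
      ring
    | pred i ih =>
      have := hFp (k + N * (-(i : ℤ) - 1))
      rw [show k + N * (-(i : ℤ) - 1) + N = k + N * (-(i : ℤ)) by ring, ih] at this
      push_cast at this ⊢
      linarith
  refine ⟨I, ?_, hIk, ?_, ?_, ?_⟩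
  · intro k k' h
    rw [hI]
    have := hF.monotone h
    linarith [hI1 k]
  · intro k
    apply le_antisymm
    · have h1 := hI1 (k + N)
      rw [hFp] at h1
      have h2 : I (k + N) - N ≤ I k := by
        rw [hI]
        have h3 := hFp (I (k + N) - N)
        rw [sub_add_cancel] at h3
        linarith
      omega
    · rw [hI, hFp, hFp]
      linarith [hI1 k]
  · intro k
    rw [← hF.lt_iff_lt, hFp]
    linarith [hI1 k, hI1 (I k), hI1 (I (I k)), hI1 (I (I (I k)))]
  · intro K
    set c : ℝ → ℕ := fun t => #{s ∈ A | ∃ m : ℤ, t < s + 2 * Real.pi * m ∧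
      s + 2 * Real.pi * m < t + Real.pi / 2} with hc
    have h1 : ∀ k, I k - k = (c (F k) : ℤ) := by
      intro k
      have h2 : #(Ioc k (I k)) = c (F k) := by
        choose M hM using hF1
        refine card_bij (fun j _ => F j + 2 * Real.pi * M j) ?_ ?_ ?_
        · intro j hj
          rw [mem_Ioc] at hj
          rw [mem_filter]
          refine ⟨hM j, -M j, ?_, ?_⟩
          · have := hF hj.1
            push_cast
            linarith
          · have := (hI k j).1 hj.2
            push_cast
            linarith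
        · intro j hj j' hj' h
          rw [mem_Ioc] at hj hj'
          have h3 : F (j + N * (M j - M j')) = F j' := by
            rw [hFm]
            push_cast
            have h : F j + 2 * Real.pi * M j = F j' + 2 * Real.pi * M j' := h
            linarith
          have h4 := hF.injective h3
          have h5 := hIN k
          have h6 : M j - M j' = 0 := by
            by_contra h6
            rcases lt_or_gt_of_ne h6 with h7 | h7
            · have : N * (M j - M j') ≤ N * (-1) := by
                apply mul_le_mul_of_nonneg_left _ hN0.le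
                omega
              omega
            · have : N * 1 ≤ N * (M j - M j') := by
                apply mul_le_mul_of_nonneg_left _ hN0.le
                omega
              omega
          rw [h6] at h4
          omega
        · intro s hs
          rw [mem_filter] at hs
          obtain ⟨hsA, m, h3, h4⟩ := hs
          obtain ⟨j, hj⟩ := hF2 s hsA m
          refine ⟨j, ?_, ?_⟩
          · rw [mem_Ioc]
            refine ⟨?_, ?_⟩
            · rw [← hF.lt_iff_lt, hj]
              exact h3
            · rw [hI, hj]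
              exact h4
          · show F j + 2 * Real.pi * M j = s
            have h5 := hAr _ (hM j)
            have h6 := hAr _ hsA
            rw [hj] at h5 ⊢
            have h7 : m + M j = 0 := by
              by_contra h7
              rcases lt_or_gt_of_ne h7 with h8 | h8
              · have h9 : ((m + M j : ℤ) : ℝ) ≤ -1 := by
                  have : m + M j ≤ -1 := by omega
                  exact_mod_cast this
                push_cast at h9
                nlinarith
              · have h9 : (1 : ℝ) ≤ ((m + M j : ℤ) : ℝ) := by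
                  have : 1 ≤ m + M j := by omega
                  exact_mod_cast this
                push_cast at h9
                nlinarith
            have h8 : (m : ℝ) + (M j : ℝ) = 0 := by exact_mod_cast h7
            linear_combination 2 * Real.pi * h8
      rw [← h2, Int.card_Ioc]
      have := hIk k
      omega
    have h2 : ∀ p ∈ (univ : Finset ι).erase v, al x y v p = c (th x y v p) := by
      intro p hp
      have hp' : p ≠ v := by simpa using hp
      have h3 : ({q | 0 < cr x y v p q ∧ 0 < dt x y v p q} : Finset ι) =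
          {q ∈ (univ : Finset ι).erase v | ∃ m : ℤ, th x y v p < th x y v q + 2 * Real.pi * m ∧
        th x y v q + 2 * Real.pi * m < th x y v p + Real.pi / 2} := by
        ext q
        simp only [mem_filter, mem_univ, true_and, mem_erase]
        by_cases hq : q = v
        · subst hq
          simp [cr]
        · rw [acute_iff x y hg v p q hp' hq]
          simp [hq]
      rw [al, h3, hc]
      simp only
      rw [hA, filter_image, card_image_of_injOn]
      exact hinj.mono (by
        intro q hq
        exact (mem_filter.1 hq).1)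
    simp only [h1]
    rw [hF3 (fun t => max ((K : ℤ) - (c t : ℤ)) 0), hA, sum_image hinj, br]
    push_cast
    refine sum_congr rfl fun p hp => ?_
    rw [h2 p hp]
    omega

end Pool.Agent.AKH
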