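import Pool.Agent.AK.Geo
import Pool.Agent.AKH.Ray
import Pool.Agent.AKH.Cyc3

set_option autoImplicit false

/-!
# The lower bound `0.14705`
-/

namespace Pool.Agent.AKH

open Finset Classical Pool.Agent.AK Pool.Agent.MP_0af329_co

/-- the bracket of one point, at level `0.367 n` -/
theorem br_ge (S : Finset Pt) (hS : GenPos S) (h3 : 3 ≤ S.card) (v : S) :
    (((367 * (S.card - 1) / 1000 : ℕ) : ℤ)) ^ 2 ≤
      2 * (br (367 * (S.card - 1) / 1000) (X S) (Y S) v : ℤ) + 6 * (S.card : ℤ) := by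
  have hc : Fintype.card S = S.card := Fintype.card_coe S
  obtain ⟨I, h1, h2, h4, h5, h6⟩ := exists_cyc (X S) (Y S) (gen S hS) v (by omega)
  rw [h6]
  rw [hc] at h4 h5 ⊢
  have h7 : (1000 : ℤ) * ((367 * (S.card - 1) / 1000 : ℕ) : ℤ) ≤ 367 * ((S.card : ℤ) - 1) := by
    omega
  have h8 : (367 : ℤ) * ((S.card : ℤ) - 1) < 1000 * ((367 * (S.card - 1) / 1000 : ℕ) : ℤ) + 1000 := by
    omega
  have h9 := cyc_main (N := (S.card : ℤ) - 1) (K := ((367 * (S.card - 1) / 1000 : ℕ) : ℤ)) (I := I)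
    h1 h4 h5 h2 (by omega) h7 h8
  have h10 : (0 : ℤ) ≤ ((367 * (S.card - 1) / 1000 : ℕ) : ℤ) := by positivity
  nlinarith [h9, h10]

/-- the number of obtuse angles -/
theorem cnt_ge (S : Finset Pt) (hS : GenPos S) (h3 : 3 ≤ S.card) :
    (2941 / 20000 : ℝ) * ((S.card : ℝ) * ((S.card : ℝ) - 1) * ((S.card : ℝ) - 2)) -
      20 * (S.card : ℝ) ^ 2 ≤ cnt S (Set.Ioi (Real.pi / 2)) := by
  set n : ℕ := S.card with hn
  set K : ℕ := 367 * (n - 1) / 1000 with hK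
  have h1 := cnt_Ici_ge S hS K
  have h2 := cnt_Ioi_ge S hS
  have h4 : (n : ℤ) * ((K : ℤ) ^ 2 - 6 * n) ≤ 2 * brk S K := by
    unfold brk
    rw [mul_sum]
    have h5 := card_nsmul_le_sum (univ : Finset S) (fun v => 2 * (br K (X S) (Y S) v : ℤ))
      ((K : ℤ) ^ 2 - 6 * n) (fun v _ => by
        have := br_ge S hS h3 v
        rw [← hn, ← hK] at this
        linarith)
    rwa [nsmul_eq_mul, card_univ, Fintype.card_coe, ← hn] at h5
  rw [← hn] at h1 h2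
  have hKn : K ≤ n := by omega
  have h5 : (6 : ℝ) * (((n - K).choose 3 : ℕ) : ℝ) ≤ ((n : ℝ) - K) ^ 3 := by
    have h6 : ((n - K).choose 3 : ℝ) ≤ ((n - K : ℕ) : ℝ) ^ 3 / (Nat.factorial 3 : ℕ) :=
      Nat.choose_le_pow_div 3 (n - K)
    rw [Nat.cast_sub hKn] at h6
    norm_num [Nat.factorial] at h6
    linarith
  have h6 : (1000 : ℝ) * K ≤ 367 * n := by
    have : 1000 * K ≤ 367 * n := by omega
    exact_mod_cast this
  have h7 : (367 : ℝ) * n ≤ 1000 * K + 1367 := by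
    have : 367 * n ≤ 1000 * K + 1367 := by omega
    exact_mod_cast this
  have h1' : ((n : ℝ) * (n - 1) * (n - 2)) + n * ((K : ℝ) ^ 2 - 6 * n) ≤
      cnt S (Set.Ici (Real.pi / 2)) + 6 * (((n - K).choose 3 : ℕ) : ℝ) +
        2 * ((n : ℝ) * (n - 1) * K) := by
    have : ((n : ℤ) * (n - 1) * (n - 2)) + n * ((K : ℤ) ^ 2 - 6 * n) ≤
      cnt S (Set.Ici (Real.pi / 2)) + 6 * (((n - K).choose 3 : ℕ) : ℤ) +
        2 * ((n : ℤ) * (n - 1) * K) := by linarith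
    exact_mod_cast this
  have h2' : (cnt S (Set.Ici (Real.pi / 2)) : ℝ) ≤
      cnt S (Set.Ioi (Real.pi / 2)) + 2 * ((n : ℝ) * (n - 1)) := by exact_mod_cast h2
  have hn3 : (3 : ℝ) ≤ n := by exact_mod_cast h3
  have hK0 : (0 : ℝ) ≤ K := Nat.cast_nonneg K
  -- the main term
  have h8 : (n : ℝ) * (n - K) * (n - K) * K ≥ 0 := by
    have : (0 : ℝ) ≤ (n : ℝ) - K := by linarith
    positivity
  have h9 : (K : ℝ) * (n - K) ^ 2 ≥ (367 / 1000 * n - 1367 / 1000) * (633 / 1000 * n) ^ 2 := by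
    rcases le_or_gt (367 / 1000 * (n : ℝ) - 1367 / 1000) 0 with h | h
    · have : (0 : ℝ) ≤ (K : ℝ) * (n - K) ^ 2 := by positivity
      have h10 : (367 / 1000 * (n : ℝ) - 1367 / 1000) * (633 / 1000 * n) ^ 2 ≤ 0 :=
        mul_nonpos_of_nonpos_of_nonneg h (by positivity)
      linarith
    · have h10 : (633 / 1000 * (n : ℝ)) ≤ n - K := by linarith
      have h11 : (633 / 1000 * (n : ℝ)) ^ 2 ≤ (n - K) ^ 2 :=
        pow_le_pow_left₀ (by positivity) h10 2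
      have h12 : (367 / 1000 * (n : ℝ) - 1367 / 1000) ≤ K := by linarith
      calc (367 / 1000 * (n : ℝ) - 1367 / 1000) * (633 / 1000 * n) ^ 2 ≤
          K * (633 / 1000 * n) ^ 2 := mul_le_mul_of_nonneg_right h12 (by positivity)
        _ ≤ K * (n - K) ^ 2 := mul_le_mul_of_nonneg_left h11 hK0
  have h13 : (0 : ℝ) ≤ (n : ℝ) ^ 3 := by positivity
  have h14 : (0 : ℝ) ≤ (n : ℝ) ^ 2 := by positivity
  have h15 : (0 : ℝ) ≤ (n : ℝ) * K := by positivity
  nlinarith [h1', h2', h5, h9, h13, h14, h15]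

/-- `F(90°) ≥ 0.14705` -/
theorem half_bound : (2941 / 20000 : ℝ) ≤ F (Real.pi / 2) :=
  le_dens _ _ 20 (fun S hS h3 => cnt_ge S hS h3)

end Pool.Agent.AKH
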